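import Mathlib

/-! Small values of a real polynomial at the integers. -/

set_option autoImplicit false

namespace Pool.Agent.T2H58.SE

open Finset Polynomial

theorem emb_gap {k : ℕ} (e : Fin k ↪o ℕ) (a m : ℕ) (h : a + m < k) : e ⟨a, by omega⟩ + m ≤ e ⟨a + m, h⟩ := by
  induction m with
  | zero => simp
  | succ m ih =>
    have h1 := ih (by omega)
    have h2 : e ⟨a + m, by omega⟩ < e ⟨a + (m + 1), h⟩ := e.strictMono (by
      rw [Fin.mk_lt_mk]; omega)
    omega

/-- the number of the small values of a polynomial -/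
theorem small_vals (d : ℕ) (P : ℝ[X]) (hP : P.natDegree ≤ d) (S : Finset ℕ) (η : ℝ) (hη : 0 ≤ η)
    (hS : ∀ n ∈ S, |P.eval (n : ℝ)| ≤ η) (g : ℕ) (hg : (d + 1) * η < |P.coeff d| * (g : ℝ) ^ d) (hg1 : 1 ≤ g) :
    S.card ≤ d * g := by
  by_contra hcon
  push Not at hcon
  obtain ⟨k, hk⟩ : ∃ k, k = S.card := ⟨_, rfl⟩
  obtain ⟨e, he⟩ : ∃ e : Fin k ↪o ℕ, e = S.orderEmbOfFin hk.symm := ⟨_, rfl⟩
  have hmem : ∀ i, e i ∈ S := fun i => by rw [he]; exact orderEmbOfFin_mem S hk.symm i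
  have hlt : ∀ i : Fin (d + 1), (i : ℕ) * g < k := by
    intro i
    have h1 : (i : ℕ) * g ≤ d * g := Nat.mul_le_mul_right _ (by omega)
    omega
  obtain ⟨v, hv⟩ : ∃ v : Fin (d + 1) → ℝ, v = fun i : Fin (d + 1) => ((e ⟨(i : ℕ) * g, hlt i⟩ : ℕ) : ℝ) := ⟨_, rfl⟩
  have hgap : ∀ i j : Fin (d + 1), i < j → v i + g ≤ v j := by
    intro i j hij
    have h1 : (i : ℕ) * g + g ≤ (j : ℕ) * g := by
      have h2 : (i : ℕ) + 1 ≤ j := hij
      calc (i : ℕ) * g + g = ((i : ℕ) + 1) * g := by ring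
        _ ≤ (j : ℕ) * g := Nat.mul_le_mul_right _ h2
    have h2 := emb_gap e ((i : ℕ) * g) ((j : ℕ) * g - (i : ℕ) * g) (by have := hlt j; omega)
    have h3 : (⟨(i : ℕ) * g + ((j : ℕ) * g - (i : ℕ) * g), by have := hlt j; omega⟩ : Fin k) = ⟨(j : ℕ) * g, hlt j⟩ := by
      apply Fin.ext
      dsimp only
      omega
    rw [h3] at h2
    have h4 : e ⟨(i : ℕ) * g, hlt i⟩ + g ≤ e ⟨(j : ℕ) * g, hlt j⟩ := by omega
    rw [hv]
    show ((e ⟨(i : ℕ) * g, hlt i⟩ : ℕ) : ℝ) + (g : ℝ) ≤ ((e ⟨(j : ℕ) * g, hlt j⟩ : ℕ) : ℝ)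
    exact_mod_cast h4
  have hg0 : (1 : ℝ) ≤ g := by exact_mod_cast hg1
  have habs : ∀ i j : Fin (d + 1), j ≠ i → (g : ℝ) ≤ |v i - v j| := by
    intro i j hij
    rcases lt_or_gt_of_ne hij with h | h
    · have := hgap j i h
      exact le_trans (by linarith) (le_abs_self _)
    · have := hgap i j h
      exact le_trans (by linarith) (neg_le_abs _)
  have hinj : Set.InjOn v (univ : Finset (Fin (d + 1))) := by
    intro i _ j _ hij
    by_contra hne
    have := habs i j (Ne.symm hne)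
    rw [hij, sub_self, abs_zero] at this
    linarith
  have h1 := Lagrange.coeff_eq_sum hinj (P := P) (by
    rw [card_univ, Fintype.card_fin]
    refine lt_of_le_of_lt degree_le_natDegree ?_
    exact_mod_cast Nat.lt_succ_of_le hP)
  rw [card_univ, Fintype.card_fin, Nat.add_sub_cancel] at h1
  have h2 : |P.coeff d| ≤ (d + 1) * (η / (g : ℝ) ^ d) := by
    rw [h1]
    refine (abs_sum_le_sum_abs _ _).trans ?_
    refine (sum_le_sum (g := fun _ => η / (g : ℝ) ^ d) fun i _ => ?_).trans (le_of_eq ?_)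
    · rw [abs_div, abs_prod]
      apply div_le_div₀ hη _ (by positivity)
      · have h3 : (g : ℝ) ^ d = ∏ _j ∈ univ.erase i, (g : ℝ) := by
          rw [prod_const, card_erase_of_mem (mem_univ i), card_univ, Fintype.card_fin, Nat.add_sub_cancel]
        rw [h3]
        apply prod_le_prod (fun _ _ => by linarith)
        intro j hj
        exact habs i j (ne_of_mem_erase hj)
      · rw [hv]
        exact hS _ (hmem _)
    · rw [sum_const, card_univ, Fintype.card_fin, nsmul_eq_mul]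
      push_cast
      ring
  have h3 : |P.coeff d| * (g : ℝ) ^ d ≤ (d + 1) * η := by
    calc |P.coeff d| * (g : ℝ) ^ d ≤ (d + 1) * (η / (g : ℝ) ^ d) * (g : ℝ) ^ d := by gcongr
      _ = _ := by field_simp
  linarith

end Pool.Agent.T2H58.SE
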