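import Pool.Agent.T2H58.SE.Gen

/-! Energies of the families with other index types; conversions. -/

set_option autoImplicit false

namespace Pool.Agent.T2H58.SE

open Finset
open Pool.Agent.H373R2.T7 (energy)

theorem energy_sub (h x : ℕ) (s : ℕ → ℤ) :
    Nat.card {q : (Fin h → {m // m ∈ Icc 1 x}) × (Fin h → {m // m ∈ Icc 1 x}) //
      ∑ j, (fun i : {m // m ∈ Icc 1 x} => s i.1) (q.1 j) = ∑ j, (fun i : {m // m ∈ Icc 1 x} => s i.1) (q.2 j)} ≤ energy h x s := by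
  classical
  unfold energy
  rw [Nat.card_eq_fintype_card, Fintype.card_subtype]
  apply card_le_card_of_injOn (fun q => (fun j => (q.1 j).1, fun j => (q.2 j).1))
  · intro q hq
    rw [mem_coe, mem_filter] at hq
    rw [mem_coe, mem_filter, mem_product, Fintype.mem_piFinset, Fintype.mem_piFinset]
    exact ⟨⟨fun j => (q.1 j).2, fun j => (q.2 j).2⟩, hq.2⟩
  · intro q _ q' _ h2
    simp only [Prod.mk.injEq] at h2
    apply Prod.ext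
    · funext j
      exact Subtype.ext (congrFun h2.1 j)
    · funext j
      exact Subtype.ext (congrFun h2.2 j)

theorem card_sub (x : ℕ) (P : ℕ → Prop) [DecidablePred P] (S : Finset {m // m ∈ Icc 1 x})
    (hS : ∀ i : {m // m ∈ Icc 1 x}, P i.1 → i ∈ S) : ((Icc 1 x).filter P).card ≤ S.card := by
  classical
  refine le_trans (card_le_card ?_) (card_image_le (s := S) (f := fun i => i.1))
  intro m hm
  rw [mem_filter] at hm
  rw [mem_image]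
  exact ⟨⟨m, hm.1⟩, hS ⟨m, hm.1⟩ hm.2, rfl⟩

/-- `x / (log x)^(U+1) ≥ D` and `(log x)` large -/
theorem ev_div (D M : ℝ) (hD : 0 ≤ D) (U : ℕ) : ∃ x₀ : ℕ, ∀ x : ℕ, x₀ ≤ x → M ≤ Real.log x ∧ D ≤ x / Real.log x ^ U := by
  have e1 : ∀ᶠ x : ℕ in Filter.atTop, (D + 1) * Real.log x ^ U ≤ x := by
    have h3 : (fun y : ℝ => Real.log y ^ U) =o[Filter.atTop] fun y : ℝ => y := by
      have := isLittleO_log_rpow_rpow_atTop (s := 1) (U : ℝ) one_pos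
      refine (this.congr' ?_ ?_)
      · filter_upwards with y
        rw [← Real.rpow_natCast]
      · filter_upwards with y; simp
    have h4 := h3.def (show (0 : ℝ) < 1 / (D + 1) by positivity)
    filter_upwards [(tendsto_natCast_atTop_atTop (R := ℝ)).eventually h4, Filter.eventually_ge_atTop 1] with x hx hx1
    have hx1' : (1 : ℝ) ≤ x := by exact_mod_cast hx1
    rw [Real.norm_of_nonneg (pow_nonneg (Real.log_nonneg hx1') _), Real.norm_of_nonneg (by linarith)] at hx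
    have hn : (0 : ℝ) < D + 1 := by positivity
    calc (D + 1) * Real.log x ^ U ≤ (D + 1) * (1 / (D + 1) * x) := by gcongr
      _ = x := by field_simp
  have e2 := (Real.tendsto_log_atTop.comp (tendsto_natCast_atTop_atTop (R := ℝ))).eventually_ge_atTop (max 1 M)
  obtain ⟨x₀, h0⟩ := Filter.eventually_atTop.1 (e1.and e2)
  refine ⟨x₀, fun x hx => ?_⟩
  obtain ⟨h1, h2⟩ := h0 x hx
  simp only [Function.comp] at h2
  have h3 : 1 ≤ Real.log x := (le_max_left _ _).trans h2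
  have h4 : M ≤ Real.log x := (le_max_right _ _).trans h2
  refine ⟨h4, ?_⟩
  have h5 : 0 < Real.log x ^ U := by positivity
  rw [le_div_iff₀ h5]
  nlinarith

/-- **Positivity of `⌊f(n)⌋`.** If all but at most `x / (log x)^(U+1)` of the integers `n ≤ x` with `⌊f(n)⌋ > 0` satisfy
`P n`, then all but at most `x / (log x)^U` of all the integers `n ≤ x` satisfy `⌊f(n)⌋ > 0` and `P n`. -/
theorem pos_most (α c : ℝ) (hα : 0 < α) (hc : 0 < c) {l : ℕ} (β γ : Fin l → ℝ) (hγ : ∀ i, γ i < c) (U : ℕ) (P : ℕ → Prop)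
    [DecidablePred fun n : ℕ => 0 < ⌊gp α c β γ n⌋ ∧ ¬ P n] [DecidablePred fun n : ℕ => ¬ (0 < ⌊gp α c β γ n⌋ ∧ P n)]
    (H : ∃ x₀ : ℕ, ∀ x : ℕ, x₀ ≤ x →
      (((Icc 1 x).filter (fun n : ℕ => 0 < ⌊gp α c β γ n⌋ ∧ ¬ P n)).card : ℝ) ≤ x / Real.log x ^ (U + 1)) :
    ∃ x₀ : ℕ, ∀ x : ℕ, x₀ ≤ x →
      (((Icc 1 x).filter (fun n : ℕ => ¬ (0 < ⌊gp α c β γ n⌋ ∧ P n))).card : ℝ) ≤ x / Real.log x ^ U := by
  obtain ⟨x₀, h0⟩ := H
  have hc1 := (tendsto_natCast_atTop_atTop (R := ℝ)).eventually ((tendsto_rpow_atTop hc).eventually_ge_atTop (2 / α))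
  obtain ⟨n₀, hn₀⟩ := Filter.eventually_atTop.1 ((gp_low α c hα β γ hγ).and hc1)
  obtain ⟨x₁, h1⟩ := ev_div n₀ 2 (Nat.cast_nonneg _) (U + 1)
  refine ⟨max x₀ x₁, fun x hx => ?_⟩
  have h2 := h0 x ((le_max_left _ _).trans hx)
  obtain ⟨h3, h4⟩ := h1 x ((le_max_right _ _).trans hx)
  have hsub : (Icc 1 x).filter (fun n : ℕ => ¬ (0 < ⌊gp α c β γ n⌋ ∧ P n)) ⊆
      (Icc 1 n₀) ∪ (Icc 1 x).filter (fun n : ℕ => 0 < ⌊gp α c β γ n⌋ ∧ ¬ P n) := by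
    intro n hn
    rw [mem_filter] at hn
    obtain ⟨hn1, hn2⟩ := hn
    rw [mem_union, mem_filter]
    rcases le_total n n₀ with h5 | h5
    · left
      rw [mem_Icc] at hn1 ⊢
      exact ⟨hn1.1, h5⟩
    · right
      obtain ⟨h6, h7⟩ := hn₀ n h5
      have h8 : (1 : ℝ) ≤ gp α c β γ n := by
        rw [div_le_iff₀ hα] at h7
        linarith
      have h9 : 0 < ⌊gp α c β γ n⌋ := Int.floor_pos.2 h8
      exact ⟨hn1, h9, fun hP => hn2 ⟨h9, hP⟩⟩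
  have h5 := (card_le_card hsub).trans (card_union_le _ _)
  rw [Nat.card_Icc, Nat.add_sub_cancel] at h5
  have h6 : (((Icc 1 x).filter (fun n : ℕ => ¬ (0 < ⌊gp α c β γ n⌋ ∧ P n))).card : ℝ) ≤
      n₀ + (((Icc 1 x).filter (fun n : ℕ => 0 < ⌊gp α c β γ n⌋ ∧ ¬ P n)).card : ℝ) := by exact_mod_cast h5
  have hx0 : (0 : ℝ) ≤ x / Real.log x ^ (U + 1) := (Nat.cast_nonneg _).trans h4
  have e : (x : ℝ) / Real.log x ^ U = (x / Real.log x ^ (U + 1)) * Real.log x := by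
    have : Real.log (x : ℝ) ≠ 0 := by linarith
    rw [pow_succ]; field_simp
  rw [e]
  nlinarith

/-- **Size and positivity of `⌊f(n)⌋`.** -/
theorem size_most (α c : ℝ) (hα : 0 < α) (hc : 0 < c) {l : ℕ} (β γ : Fin l → ℝ) (hγ : ∀ i, γ i < c) (U : ℕ) :
    ∃ V x₀ : ℕ, ∀ x : ℕ, x₀ ≤ x → ∀ n ∈ Icc 1 x, (x : ℝ) / Real.log x ^ (U + 1) < n →
      0 < ⌊gp α c β γ n⌋ ∧ (x : ℝ) ^ c ≤ ((⌊gp α c β γ n⌋ : ℤ) : ℝ) * Real.log x ^ V := by
  obtain ⟨V, hV⟩ : ∃ V : ℕ, V = ⌈(U + 1 : ℝ) * c⌉₊ := ⟨_, rfl⟩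
  have hVc : (U + 1 : ℝ) * c ≤ V := by rw [hV]; exact Nat.le_ceil _
  obtain ⟨n₀, hn₀⟩ := Filter.eventually_atTop.1 (gp_low α c hα β γ hγ)
  obtain ⟨x₁, h1⟩ := ev_div n₀ (max 3 (4 / α)) (Nat.cast_nonneg _) (U + 1)
  have e3 : ∀ᶠ x : ℕ in Filter.atTop, 4 / α * Real.log x ^ V ≤ (x : ℝ) ^ c := by
    have h3 : (fun y : ℝ => Real.log y ^ V) =o[Filter.atTop] fun y : ℝ => y ^ c := by
      have := isLittleO_log_rpow_rpow_atTop (s := c) (V : ℝ) hc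
      refine (this.congr' ?_ ?_)
      · filter_upwards with y
        rw [← Real.rpow_natCast]
      · filter_upwards with y; simp
    have h4 := h3.def (show (0 : ℝ) < α / 4 by positivity)
    filter_upwards [(tendsto_natCast_atTop_atTop (R := ℝ)).eventually h4, Filter.eventually_ge_atTop 1] with x hx hx1
    have hx1' : (1 : ℝ) ≤ x := by exact_mod_cast hx1
    rw [Real.norm_of_nonneg (pow_nonneg (Real.log_nonneg hx1') _), Real.norm_of_nonneg (by positivity)] at hx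
    calc 4 / α * Real.log x ^ V ≤ 4 / α * (α / 4 * (x : ℝ) ^ c) := by gcongr
      _ = (x : ℝ) ^ c := by field_simp
  obtain ⟨x₂, h2⟩ := Filter.eventually_atTop.1 e3
  refine ⟨V + 1, max x₁ (max x₂ 1), fun x hx n hn hnx => ?_⟩
  obtain ⟨h3, h4⟩ := h1 x ((le_max_left _ _).trans hx)
  have h5 := h2 x ((le_max_left _ _).trans ((le_max_right _ _).trans hx))
  have hx1 : 1 ≤ x := (le_max_right _ _).trans ((le_max_right _ _).trans hx)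
  have hx0 : (0 : ℝ) < x := by exact_mod_cast hx1
  rw [mem_Icc] at hn
  have hn0 : (0 : ℝ) < n := by exact_mod_cast hn.1
  obtain ⟨L, hL⟩ : ∃ L, L = Real.log (x : ℝ) := ⟨_, rfl⟩
  rw [← hL] at h3 h4 h5 hnx ⊢
  have hL3 : 3 ≤ L := (le_max_left _ _).trans h3
  have hL4 : 4 / α ≤ L := (le_max_right _ _).trans h3
  have hL0 : 0 < L := by linarith
  have hnn₀ : n₀ ≤ n := by exact_mod_cast h4.trans hnx.le
  have h6 := hn₀ n hnn₀
  have h7 : (x : ℝ) ^ c / L ^ V ≤ (n : ℝ) ^ c := by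
    have h7 : ((x : ℝ) / L ^ (U + 1)) ^ c ≤ (n : ℝ) ^ c := Real.rpow_le_rpow (by positivity) hnx.le hc.le
    refine le_trans ?_ h7
    rw [Real.div_rpow hx0.le (by positivity)]
    apply div_le_div_of_nonneg_left (by positivity) (by positivity)
    rw [← Real.rpow_natCast, ← Real.rpow_mul hL0.le, ← Real.rpow_natCast]
    apply Real.rpow_le_rpow_of_exponent_le (by linarith)
    push_cast
    exact hVc
  have h8 : 2 ≤ α / 2 * (n : ℝ) ^ c := by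
    have h8 : 4 / α ≤ (x : ℝ) ^ c / L ^ V := by rw [le_div_iff₀ (by positivity)]; exact h5
    have h9 : 4 / α ≤ (n : ℝ) ^ c := h8.trans h7
    rw [div_le_iff₀ hα] at h9
    linarith
  have h9 : α / 4 * (n : ℝ) ^ c ≤ ((⌊gp α c β γ n⌋ : ℤ) : ℝ) := by
    have h9 := Int.lt_floor_add_one (gp α c β γ n)
    linarith
  have hpos : 0 < ⌊gp α c β γ n⌋ := by
    have h9 : (0 : ℝ) < ((⌊gp α c β γ n⌋ : ℤ) : ℝ) := by linarith
    exact_mod_cast h9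
  refine ⟨hpos, ?_⟩
  have h10 : (x : ℝ) ^ c ≤ (n : ℝ) ^ c * L ^ V := by rwa [div_le_iff₀ (by positivity)] at h7
  have h11 : 1 ≤ α / 4 * L := by
    rw [div_le_iff₀ hα] at hL4; linarith
  calc (x : ℝ) ^ c ≤ (n : ℝ) ^ c * L ^ V * 1 := by rw [mul_one]; exact h10
    _ ≤ (n : ℝ) ^ c * L ^ V * (α / 4 * L) := by gcongr
    _ = α / 4 * (n : ℝ) ^ c * L ^ (V + 1) := by rw [pow_succ]; ring
    _ ≤ ((⌊gp α c β γ n⌋ : ℤ) : ℝ) * L ^ (V + 1) := by gcongr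

/-- the choice of `N`: common parameters -/
theorem params (α c : ℝ) (hc : 0 < c) {l : ℕ} (β γ : Fin l → ℝ) (hγ : ∀ i, γ i < c) (μ : ℤ) (B A U N₀ : ℕ) :
    ∃ B₁ : ℝ, 1 ≤ B₁ ∧ ∃ x₀ : ℕ, 2 ≤ x₀ ∧ ∀ x : ℕ, x₀ ≤ x → ∃ N : ℕ, N₀ ≤ N ∧ (x : ℝ) ^ c ≤ N ∧ (N : ℝ) ≤ 2 * B₁ * (x : ℝ) ^ c ∧
      1 ≤ Real.log x ∧ 2 * B₁ * Real.log x ^ A ≤ Real.log N ^ (A + 1) ∧ Real.log x ^ U ≤ Real.log N ^ (U + 1) ∧
      ∀ c₀ : ℤ, (|c₀| : ℝ) ≤ B * (x : ℝ) ^ c → ∀ m ∈ Icc 1 x, |c₀ + μ * ⌊gp α c β γ m⌋| ≤ N := by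
  obtain ⟨B₁, hB₁⟩ : ∃ B₁ : ℝ, B₁ = max 1 (B + |(μ : ℝ)| * (|α| + ∑ i, |β i| + 1)) := ⟨_, rfl⟩
  have hB₁1 : 1 ≤ B₁ := by rw [hB₁]; exact le_max_left _ _
  have hB₁2 : B + |(μ : ℝ)| * (|α| + ∑ i, |β i| + 1) ≤ B₁ := by rw [hB₁]; exact le_max_right _ _
  obtain ⟨x₂, hx₂, hlog⟩ := logs c hc (2 * B₁) A N₀
  obtain ⟨x₃, _, hlog3⟩ := logs c hc 1 U N₀
  refine ⟨B₁, hB₁1, max x₂ x₃, hx₂.trans (le_max_left _ _), fun x hx => ?_⟩
  have hxx2 : x₂ ≤ x := (le_max_left _ _).trans hx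
  have hxx3 : x₃ ≤ x := (le_max_right _ _).trans hx
  have hx1 : (1 : ℝ) ≤ x := by exact_mod_cast (by omega : 1 ≤ x)
  have hxc : 1 ≤ (x : ℝ) ^ c := Real.one_le_rpow hx1 hc.le
  obtain ⟨hl1, hlog'⟩ := hlog x hxx2
  obtain ⟨N, hN⟩ : ∃ N : ℕ, N = ⌈B₁ * (x : ℝ) ^ c⌉₊ := ⟨_, rfl⟩
  have hN1 : B₁ * (x : ℝ) ^ c ≤ N := by rw [hN]; exact Nat.le_ceil _
  have hN2 : (N : ℝ) ≤ 2 * B₁ * (x : ℝ) ^ c := by
    have h1 := (Nat.ceil_lt_add_one (show 0 ≤ B₁ * (x : ℝ) ^ c by positivity)).le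
    rw [← hN] at h1
    nlinarith
  have hN3 : (x : ℝ) ^ c ≤ N := by nlinarith
  obtain ⟨hN0, hlA⟩ := hlog' N hN3
  obtain ⟨-, hlU⟩ := (hlog3 x hxx3).2 N hN3
  rw [one_mul] at hlU
  refine ⟨N, hN0, hN3, hN2, hl1, hlA, hlU, fun c₀ hc₀ m hm => ?_⟩
  have h2 := fam_bd α c hc β γ hγ μ B c₀ hc₀ hm
  have h3 : ((|c₀ + μ * ⌊gp α c β γ m⌋| : ℤ) : ℝ) ≤ N := by
    refine h2.trans (le_trans ?_ hN1)
    exact mul_le_mul_of_nonneg_right hB₁2 (by positivity)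
  exact_mod_cast h3

end Pool.Agent.T2H58.SE
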