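import Pool.Agent.T2H58.SE.Jt
import Pool.Agent.H373R2.T7.SupLiou

/-! The Liouville function at polynomials with linear factors whose constant terms lie near members of families. -/

set_option autoImplicit false

namespace Pool.Agent.T2H58.SE.Fac

open Finset

/-- the Liouville function: `λ(n) = (-1)^Ω(|n|)` for `n ≠ 0`, and `λ(0) = 0` -/
noncomputable def lam (n : ℤ) : ℝ := if n = 0 then 0 else (-1) ^ ArithmeticFunction.cardFactors n.natAbs

/-- The tuple `h` of integers is good: for all `l` and all nonempty sets `I` of indices with `h i ≥ 0` for `i ∈ I`, the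
polynomial `f = G l ∏_{i ∈ I} (a l T + h i)` satisfies `|∑ λ(f(t))| ≤ N / log ^ U N` for the sum over the `1 ≤ t ≤ X` with
`t ≡ r mod q`, for all `q ≥ 1`, `r` and `X ≤ A N / a l`. -/
def Small (A U N : ℕ) {L s : ℕ} (a : Fin L → ℕ) (G : Fin L → Polynomial ℤ) (h : Fin s → ℤ) : Prop :=
  ∀ l, ∀ I : Finset (Fin s), I.Nonempty → (∀ i ∈ I, 0 ≤ h i) → ∀ q r X : ℕ, 1 ≤ q → a l * X ≤ A * N →
    |∑ t ∈ (Icc 1 X).filter (fun t => t ≡ r [MOD q]),
      lam ((G l * ∏ i ∈ I, (Polynomial.C (a l : ℤ) * Polynomial.X + Polynomial.C (h i))).eval (t : ℤ))| ≤ N / Real.log N ^ U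

lemma lam_mul (m n : ℤ) : lam (m * n) = lam m * lam n := by
  unfold lam
  by_cases hm : m = 0
  · simp [hm]
  by_cases hn : n = 0
  · simp [hn]
  rw [if_neg hm, if_neg hn, if_neg (mul_ne_zero hm hn), Int.natAbs_mul,
    ArithmeticFunction.cardFactors_mul (Int.natAbs_ne_zero.2 hm) (Int.natAbs_ne_zero.2 hn), pow_add]

lemma lam_le (m : ℤ) : |lam m| ≤ 1 := by
  unfold lam
  split_ifs
  · simp
  · rw [abs_pow, abs_neg, abs_one, one_pow]

lemma lam_one : lam 1 = 1 := by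
  unfold lam
  simp

lemma lam_prod {ι : Type} (I : Finset ι) (f : ι → ℤ) : lam (∏ i ∈ I, f i) = ∏ i ∈ I, lam (f i) := by
  classical
  induction I using Finset.induction_on with
  | empty => simp [lam_one]
  | insert i I hi ih => rw [prod_insert hi, prod_insert hi, lam_mul, ih]

lemma lam_exI (m : ℤ) (hm : 1 ≤ m) :
    ((lam m : ℝ) : ℂ) = Pool.Agent.H373R2.T7.exI Pool.Agent.H373R2.T7.liR m := by
  unfold lam Pool.Agent.H373R2.T7.exI Pool.Agent.H373R2.T7.liR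
  rw [if_neg (by omega), if_pos hm]
  have : m.natAbs = m.toNat := by omega
  rw [this]
  push_cast
  rfl

/-- the number of the elements of a residue class -/
lemma card_class (q r X : ℕ) (hq : 1 ≤ q) : (((Icc 1 X).filter (fun t => t ≡ r [MOD q])).card : ℝ) ≤ X / q + 1 := by
  have h0 : (Icc 1 X).filter (fun t => t ≡ r [MOD q]) = (Ioc 0 X).filter (fun t => t ≡ r [MOD q]) := rfl
  have h1 := Nat.Ioc_filter_modEq_card 0 X (r := q) (by omega) r
  have h2 : (((Ioc 0 X).filter (fun t => t ≡ r [MOD q])).card : ℤ) ≤ X / q + 1 := by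
    rw [h1]
    have hq0 : (0 : ℚ) < q := by exact_mod_cast hq
    have e1 : (⌊((X : ℚ) - r) / q⌋ : ℤ) - ⌊((0 : ℕ) - (r : ℚ)) / q⌋ ≤ (X : ℤ) / q + 1 := by
      have g1 : (⌊((X : ℚ) - r) / q⌋ : ℚ) ≤ ((X : ℚ) - r) / q := Int.floor_le _
      have g2 : ((0 : ℕ) - (r : ℚ)) / q < ⌊((0 : ℕ) - (r : ℚ)) / q⌋ + 1 := Int.lt_floor_add_one _
      have g3 : ((⌊((X : ℚ) - r) / q⌋ - ⌊((0 : ℕ) - (r : ℚ)) / q⌋ : ℤ) : ℚ) < (X : ℚ) / q + 1 := by
        push_cast
        have : ((X : ℚ) - r) / q - ((0 : ℕ) - (r : ℚ)) / q = (X : ℚ) / q := by push_cast; ring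
        push_cast at g2 this
        linarith
      have g4 : (⌊((X : ℚ) - r) / q⌋ - ⌊((0 : ℕ) - (r : ℚ)) / q⌋ : ℤ) - 1 ≤ (X : ℤ) / q := by
        rw [Int.le_ediv_iff_mul_le (by exact_mod_cast hq)]
        have g5 : ((⌊((X : ℚ) - r) / q⌋ - ⌊((0 : ℕ) - (r : ℚ)) / q⌋ : ℤ) : ℚ) - 1 ≤ (X : ℚ) / q := by linarith
        rw [le_div_iff₀ hq0] at g5
        exact_mod_cast g5
      linarith
    have hx : (0 : ℤ) ≤ (X : ℤ) / q := by positivity
    exact max_le e1 (by linarith)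
  have h3 : ((((Ioc 0 X).filter (fun t => t ≡ r [MOD q])).card : ℤ) : ℝ) ≤ (((X : ℤ) / q + 1 : ℤ) : ℝ) := by exact_mod_cast h2
  rw [h0]
  have h4 : (((X / q : ℕ) : ℤ) : ℝ) ≤ (X : ℝ) / q := by
    have := @Nat.cast_div_le ℝ _ _ _ X q
    exact_mod_cast this
  push_cast at h3 h4 ⊢
  linarith

/-- the last step -/
lemma fin_num (P ℓ : ℝ) (Q U : ℕ) (hP : 0 ≤ P) (hℓ : 4 ≤ ℓ) (hQ : (Q : ℝ) ≤ ℓ ^ (U + 1)) :
    (((Q + 1) * (Q + 1) : ℕ) : ℝ) * (P / (ℓ ^ U * ℓ ^ (2 * (U + 3)))) ≤ P / ℓ ^ U := by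
  have hℓ0 : 0 < ℓ := by linarith
  have hℓ1 : 1 ≤ ℓ := by linarith
  have hQ3 : (Q : ℝ) + 1 ≤ ℓ ^ (U + 3) := by
    have e1 : 1 ≤ ℓ ^ (U + 1) := one_le_pow₀ hℓ1
    have e2 : ℓ ^ (U + 3) = ℓ ^ (U + 1) * (ℓ * ℓ) := by ring
    have e3 : 16 ≤ ℓ * ℓ := by nlinarith
    rw [e2]
    have e4 : ℓ ^ (U + 1) * 16 ≤ ℓ ^ (U + 1) * (ℓ * ℓ) := mul_le_mul_of_nonneg_left e3 (by linarith)
    linarith
  have hpu : 0 < ℓ ^ U := pow_pos hℓ0 _
  have e5 : ℓ ^ (2 * (U + 3)) = ℓ ^ (U + 3) * ℓ ^ (U + 3) := by rw [two_mul, pow_add]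
  have hpz : 0 < ℓ ^ (U + 3) := pow_pos hℓ0 _
  rw [e5]
  generalize ℓ ^ (U + 3) = Z at hQ3 hpz ⊢
  generalize ℓ ^ U = Y at hpu ⊢
  push_cast
  have hQ0 : (0 : ℝ) ≤ (Q : ℝ) + 1 := by positivity
  rw [mul_div_assoc', div_le_div_iff₀ (mul_pos hpu (mul_pos hpz hpz)) hpu]
  have e6 : ((Q : ℝ) + 1) * ((Q : ℝ) + 1) ≤ Z * Z := mul_le_mul hQ3 hQ3 hQ0 hpz.le
  calc ((Q : ℝ) + 1) * ((Q : ℝ) + 1) * P * Y ≤ Z * Z * P * Y := by gcongr
    _ = P * (Y * (Z * Z)) := by ring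

open Classical in
/-- the passage from the correlations to the polynomials, in all progressions -/
theorem fac_gen (s A U : ℕ) : ∃ N₂ : ℕ, ∀ N : ℕ, N₂ ≤ N → ∀ (x : Fin s → ℕ) (near : (Fin s → ℕ) → (Fin s → ℤ) → Prop)
    (L : ℕ) (a : Fin L → ℕ), (∀ l, 1 ≤ a l) → ∀ G : Fin L → Polynomial ℤ,
    (∀ g : Fin L → ℕ → ℂ, (∀ l n, ‖g l n‖ ≤ 1) →
      (((Fintype.piFinset (fun i => Icc 1 (x i))).filter (fun v => ∃ h : Fin s → ℤ, near v h ∧
        ∃ I : Finset (Fin s), I.Nonempty ∧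
          Pool.Agent.T2H58.SE.BigJ Pool.Agent.H373R2.T7.liR A (U + 2 * (U + 3)) N a g h I)).card : ℝ) ≤
        (∏ i, (x i : ℝ)) / Real.log N ^ (U + 2 * (U + 3))) →
    (((Fintype.piFinset fun i => Icc 1 (x i)).filter (fun v => ¬ ∀ h : Fin s → ℤ, near v h → Small A U N a G h)).card : ℝ) ≤
      (∏ i, (x i : ℝ)) / Real.log N ^ U := by
  obtain ⟨U', hU'⟩ : ∃ U', U' = U + 2 * (U + 3) := ⟨_, rfl⟩
  rw [← hU']
  -- the size of the logarithm
  have hev : ∀ᶠ N : ℕ in Filter.atTop, Real.log N ^ (U + 1) ≤ N ∧ (2 * A + 4 : ℝ) ≤ Real.log N := by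
    have e1 : ∀ᶠ x : ℝ in Filter.atTop, Real.log x ^ (U + 1) ≤ x := by
      have h3 := (isLittleO_log_rpow_atTop (show (0 : ℝ) < 1 / (U + 1) by positivity)).def (show (0 : ℝ) < 1 by norm_num)
      filter_upwards [h3, Filter.eventually_ge_atTop (Real.exp 1)] with x hx hx1
      have hx0 : 0 < x := lt_of_lt_of_le (Real.exp_pos 1) hx1
      have hx2 : 1 ≤ x := le_trans (by have := Real.add_one_le_exp (1 : ℝ); linarith) hx1
      have hlog : 1 ≤ Real.log x := by rwa [Real.le_log_iff_exp_le hx0]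
      rw [Real.norm_of_nonneg (by linarith), Real.norm_of_nonneg (by positivity), one_mul] at hx
      calc Real.log x ^ (U + 1) ≤ (x ^ ((1 : ℝ) / (U + 1))) ^ (U + 1) := pow_le_pow_left₀ (by linarith) hx _
        _ = x := by
          rw [← Real.rpow_natCast, ← Real.rpow_mul hx0.le]
          push_cast
          rw [one_div_mul_cancel (by positivity), Real.rpow_one]
    have e2 := (tendsto_natCast_atTop_atTop (R := ℝ)).eventually e1
    have e3 := (Real.tendsto_log_atTop.comp (tendsto_natCast_atTop_atTop (R := ℝ))).eventually_ge_atTop (2 * A + 4 : ℝ)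
    filter_upwards [e2, e3] with N h4 h5
    exact ⟨h4, h5⟩
  rw [Filter.eventually_atTop] at hev
  obtain ⟨N₂, h3⟩ := hev
  refine ⟨N₂ + 3, fun N hN x near L a ha G h0 => ?_⟩
  obtain ⟨h4, h5⟩ := h3 N (by omega)
  obtain ⟨ℓ, hℓ⟩ : ∃ ℓ, ℓ = Real.log (N : ℝ) := ⟨_, rfl⟩
  have hA0 : (0 : ℝ) ≤ A := Nat.cast_nonneg A
  have hℓ4 : 4 ≤ ℓ := by rw [hℓ]; linarith
  have hℓ0 : 0 < ℓ := by linarith
  have hℓ1 : 1 ≤ ℓ := by linarith
  have hNr : (0 : ℝ) ≤ N := Nat.cast_nonneg N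
  obtain ⟨Q, hQ⟩ : ∃ Q, Q = ⌊ℓ ^ (U + 1)⌋₊ := ⟨_, rfl⟩
  have hQr : (Q : ℝ) ≤ ℓ ^ (U + 1) := by rw [hQ]; exact Nat.floor_le (by positivity)
  have hQ2 : ℓ ^ (U + 1) < Q + 1 := by rw [hQ]; exact Nat.lt_floor_add_one _
  obtain ⟨P, hP⟩ : ∃ P, P = Fintype.piFinset (fun i => Icc 1 (x i)) := ⟨_, rfl⟩
  -- one progression
  have hone : ∀ q r : ℕ, ((P.filter (fun v => ∃ h : Fin s → ℤ,
      near v h ∧
      ∃ I : Finset (Fin s), I.Nonempty ∧ Pool.Agent.T2H58.SE.BigJ Pool.Agent.H373R2.T7.liR A U' N a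
        (fun l n => if n ≡ r [MOD q] then ((lam ((G l).eval (n : ℤ)) : ℝ) : ℂ) else 0) h I)).card : ℝ) ≤
      (∏ i, (x i : ℝ)) / Real.log N ^ U' := by
    intro q r
    have h6 := h0
      (fun l n => if n ≡ r [MOD q] then ((lam ((G l).eval (n : ℤ)) : ℝ) : ℂ) else 0) (by
        intro l n
        split_ifs
        · rw [Complex.norm_real]
          exact lam_le _
        · rw [norm_zero]
          norm_num)
    rw [hP]
    refine le_trans (le_of_eq ?_) h6
    congr!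
  have hsub : P.filter (fun v => ¬ ∀ h : Fin s → ℤ,
      near v h → Small A U N a G h) ⊆
      (range (Q + 1) ×ˢ range (Q + 1)).biUnion (fun z => P.filter (fun v => ∃ h : Fin s → ℤ,
      near v h ∧
      ∃ I : Finset (Fin s), I.Nonempty ∧ Pool.Agent.T2H58.SE.BigJ Pool.Agent.H373R2.T7.liR A U' N a
        (fun l n => if n ≡ z.2 [MOD z.1] then ((lam ((G l).eval (n : ℤ)) : ℝ) : ℂ) else 0) h I)) := by
    intro v hv
    rw [mem_filter] at hv
    obtain ⟨hv1, hv2⟩ := hv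
    unfold Small at hv2
    push Not at hv2
    obtain ⟨h, hh, l, I, hI, hI0, q, r, X, hq, hX, hbig⟩ := hv2
    -- the modulus is small
    have hqQ : q ≤ Q := by
      by_contra hcon
      push Not at hcon
      have g1 : |∑ t ∈ (Icc 1 X).filter (fun t => t ≡ r [MOD q]),
          lam ((G l * ∏ i ∈ I, (Polynomial.C (a l : ℤ) * Polynomial.X + Polynomial.C (h i))).eval (t : ℤ))| ≤
          (((Icc 1 X).filter (fun t => t ≡ r [MOD q])).card : ℝ) := by
        refine (abs_sum_le_sum_abs _ _).trans ?_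
        refine (sum_le_sum fun t _ => lam_le _).trans ?_
        rw [sum_const, nsmul_eq_mul, mul_one]
      have g2 := card_class q r X hq
      have g3 : ℓ ^ (U + 1) ≤ q := by
        have : ((Q + 1 : ℕ) : ℝ) ≤ q := by exact_mod_cast hcon
        push_cast at this
        linarith
      have hX2 : (X : ℝ) ≤ A * N := by
        have : X ≤ A * N := le_trans (Nat.le_mul_of_pos_left X (by have := ha l; omega)) hX
        exact_mod_cast this
      have hq0 : (0 : ℝ) < q := by exact_mod_cast hq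
      have g4 : (X : ℝ) / q ≤ A * N / ℓ ^ (U + 1) := by
        apply div_le_div₀ (by positivity) hX2 (by positivity) g3
      have g5 : (1 : ℝ) ≤ N / ℓ ^ (U + 1) := by
        rw [le_div_iff₀ (by positivity), one_mul]
        rw [hℓ]
        exact h4
      have g6 : (A + 1 : ℝ) * (N / ℓ ^ (U + 1)) ≤ N / ℓ ^ U := by
        rw [pow_succ, ← div_div]
        have g7 : 0 ≤ (N : ℝ) / ℓ ^ U := by positivity
        have g8 : (A + 1 : ℝ) ≤ ℓ := by rw [hℓ]; linarith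
        calc (A + 1 : ℝ) * (N / ℓ ^ U / ℓ) = (N / ℓ ^ U) * ((A + 1) / ℓ) := by ring
          _ ≤ (N / ℓ ^ U) * 1 := mul_le_mul_of_nonneg_left (by rw [div_le_one hℓ0]; exact g8) g7
          _ = _ := mul_one _
      rw [← hℓ] at hbig
      have g9 : (A : ℝ) * N / ℓ ^ (U + 1) = A * (N / ℓ ^ (U + 1)) := by ring
      rw [g9] at g4
      have g10 : (A + 1 : ℝ) * (N / ℓ ^ (U + 1)) = A * (N / ℓ ^ (U + 1)) + N / ℓ ^ (U + 1) := by ring
      linarith
    rw [mem_biUnion]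
    have hrq : ∀ t, (t ≡ r [MOD q] ↔ t ≡ r % q [MOD q]) := by
      intro t
      unfold Nat.ModEq
      rw [Nat.mod_mod]
    refine ⟨(q, r % q), ?_, ?_⟩
    · rw [mem_product, mem_range, mem_range]
      have := Nat.mod_lt r (show 0 < q by omega)
      constructor <;> dsimp only <;> omega
    · rw [mem_filter]
      refine ⟨hv1, h, hh, I, hI, l, X, hX, ?_⟩
      have g1 : (N : ℝ) / Real.log N ^ U' ≤ (N : ℝ) / Real.log N ^ U := by
        rw [← hℓ]
        apply div_le_div_of_nonneg_left hNr (by positivity)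
        exact pow_le_pow_right₀ hℓ1 (by omega)
      refine g1.trans_lt (lt_of_lt_of_eq hbig ?_)
      rw [← Real.norm_eq_abs, ← Complex.norm_real, sum_filter]
      congr 1
      push_cast
      apply sum_congr rfl
      intro t ht
      rw [mem_Icc] at ht
      by_cases ht2 : t ≡ r [MOD q]
      · rw [if_pos ht2, if_pos ((hrq t).1 ht2), Polynomial.eval_mul, lam_mul, Polynomial.eval_prod, lam_prod]
        push_cast
        congr 1
        apply prod_congr rfl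
        intro i hi
        rw [Polynomial.eval_add, Polynomial.eval_mul, Polynomial.eval_C, Polynomial.eval_X, Polynomial.eval_C]
        have g2 : (1 : ℤ) ≤ (a l : ℤ) * t + h i := by
          have e1 := ha l
          have e2 : 0 < a l * t := Nat.mul_pos (by omega) (by omega)
          have e3 := hI0 i hi
          have e4 : (0 : ℤ) < (a l : ℤ) * t := by exact_mod_cast e2
          linarith
        rw [lam_exI _ g2]
      · rw [if_neg ht2, if_neg (fun h' => ht2 ((hrq t).2 h')), zero_mul]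
        simp
  rw [hP] at hsub hone
  have hcard := (Nat.cast_le (α := ℝ)).2 ((card_le_card hsub).trans card_biUnion_le)
  refine hcard.trans ?_
  rw [Nat.cast_sum]
  refine le_trans (sum_le_sum fun z _ => hone z.1 z.2) ?_
  rw [sum_const, nsmul_eq_mul, card_product, card_range, ← hℓ, hU', pow_add]
  exact fin_num _ ℓ Q U (prod_nonneg (fun _ _ => Nat.cast_nonneg _)) hℓ4 hQr


end Pool.Agent.T2H58.SE.Fac
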