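import Pool.Agent.T2H58.SE.Tr

/-! From the large members to all members of the sequences. -/

set_option autoImplicit false

namespace Pool.Agent.T2H58.SE

open Finset

open Classical in
theorem most_of_large (α c : ℝ) (hα : 0 < α) (hc : 0 < c) {l : ℕ} (β γ : Fin l → ℝ) (hγ : ∀ i, γ i < c) (U : ℕ) :
    ∃ V x₀ : ℕ, ∀ x : ℕ, x₀ ≤ x → ∀ P : ℕ → Prop,
      (((Icc 1 x).filter (fun n : ℕ => (x : ℝ) ^ c ≤ ((⌊gp α c β γ n⌋ : ℤ) : ℝ) * Real.log x ^ V ∧ ¬ P n)).card : ℝ) ≤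
        x / Real.log x ^ (U + 1) →
      (((Icc 1 x).filter (fun n : ℕ => ¬ (0 < ⌊gp α c β γ n⌋ ∧ P n))).card : ℝ) ≤ x / Real.log x ^ U := by
  obtain ⟨V, x₀, h0⟩ := size_most α c hα hc β γ hγ U
  obtain ⟨x₁, h1⟩ := ev_div 0 2 le_rfl 0
  refine ⟨V, max x₀ x₁, fun x hx P hP => ?_⟩
  have h2 := h0 x ((le_max_left _ _).trans hx)
  obtain ⟨hl2, -⟩ := h1 x ((le_max_right _ _).trans hx)
  have hx0 : (0 : ℝ) ≤ x := Nat.cast_nonneg _
  have hl0 : 0 < Real.log (x : ℝ) := by linarith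
  have hsub : (Icc 1 x).filter (fun n : ℕ => ¬ (0 < ⌊gp α c β γ n⌋ ∧ P n)) ⊆
      (Icc 1 ⌊(x : ℝ) / Real.log x ^ (U + 1)⌋₊) ∪
      (Icc 1 x).filter (fun n : ℕ => (x : ℝ) ^ c ≤ ((⌊gp α c β γ n⌋ : ℤ) : ℝ) * Real.log x ^ V ∧ ¬ P n) := by
    intro n hn
    rw [mem_filter] at hn
    obtain ⟨hn1, hn2⟩ := hn
    rw [mem_union, mem_filter]
    by_cases h4 : (n : ℝ) ≤ (x : ℝ) / Real.log x ^ (U + 1)
    · left
      rw [mem_Icc] at hn1 ⊢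
      exact ⟨hn1.1, Nat.le_floor h4⟩
    · right
      push Not at h4
      obtain ⟨h5, h6⟩ := h2 n hn1 h4
      exact ⟨hn1, h6, fun hp => hn2 ⟨h5, hp⟩⟩
  have h5 := (Nat.cast_le (α := ℝ)).2 ((card_le_card hsub).trans (card_union_le _ _))
  rw [Nat.cast_add] at h5
  have h6 : (((Icc 1 ⌊(x : ℝ) / Real.log x ^ (U + 1)⌋₊).card : ℕ) : ℝ) ≤ x / Real.log x ^ (U + 1) := by
    rw [Nat.card_Icc, Nat.add_sub_cancel]
    exact Nat.floor_le (by positivity)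
  refine (h5.trans (add_le_add h6 hP)).trans ?_
  have e : (x : ℝ) / Real.log x ^ U = (x / Real.log x ^ (U + 1)) * Real.log x := by rw [pow_succ]; field_simp
  rw [e]
  have h9 : 0 ≤ (x : ℝ) / Real.log x ^ (U + 1) := by positivity
  nlinarith

end Pool.Agent.T2H58.SE
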